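import Mathlib

set_option autoImplicit false

open Finset

namespace Pool.Agent.MP_f19a21_co

theorem card_noninj_le (V : Type*) [Fintype V] [DecidableEq V] (t : ℕ)
    (hV : t ^ 2 ≤ Fintype.card V) (hV1 : 1 ≤ Fintype.card V) :
    ((#{X : Fin t → V | ¬ Function.Injective X} : ℕ) : ℝ) * Fintype.card V
      ≤ (t : ℝ) ^ 2 * (Fintype.card V : ℝ) ^ t := by
  classical
  set N := Fintype.card V with hN
  have hinj : #{X : Fin t → V | Function.Injective X} = N.descFactorial t := by
    rw [← Fintype.card_subtype]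
    have := Fintype.card_embedding_eq (α := Fin t) (β := V)
    rw [Fintype.card_fin] at this
    rw [← this]
    exact Fintype.card_congr (Equiv.subtypeInjectiveEquivEmbedding (Fin t) V)
  have htot : #{X : Fin t → V | Function.Injective X} + #{X : Fin t → V | ¬ Function.Injective X}
      = N ^ t := by
    rw [Finset.card_filter_add_card_filter_not]
    simp [hN]
  have htN : t ≤ N := le_trans (by nlinarith [Nat.zero_le t, sq_nonneg (t : ℤ)]) hV
  have h1 : (N + 1 - t) ^ t ≤ N.descFactorial t := Nat.pow_sub_le_descFactorial N t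
  have hNpos : (0 : ℝ) < N := by exact_mod_cast hV1
  have h2 : (1 - (t : ℝ) ^ 2 / N) * (N : ℝ) ^ t ≤ ((N + 1 - t : ℕ) : ℝ) ^ t := by
    have hb : 1 + (t : ℝ) * (-(t : ℝ) / N) ≤ (1 + (-(t : ℝ) / N)) ^ t := by
      apply one_add_mul_le_pow
      have : (t : ℝ) / N ≤ 1 := by
        rw [div_le_one hNpos]
        exact_mod_cast htN
      have h3 : -(t : ℝ) / N = - ((t : ℝ) / N) := by ring
      rw [h3]; linarith
    have hc : (1 - (t : ℝ) ^ 2 / N) = 1 + (t : ℝ) * (-(t : ℝ) / N) := by ring
    rw [hc]
    calc (1 + (t : ℝ) * (-(t : ℝ) / N)) * (N : ℝ) ^ t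
        ≤ (1 + (-(t : ℝ) / N)) ^ t * (N : ℝ) ^ t := by
          apply mul_le_mul_of_nonneg_right hb (by positivity)
      _ = ((N : ℝ) - t) ^ t := by
          rw [← mul_pow]
          congr 1
          field_simp
          ring
      _ ≤ ((N + 1 - t : ℕ) : ℝ) ^ t := by
          apply pow_le_pow_left₀
          · have : (t : ℝ) ≤ N := by exact_mod_cast htN
            linarith
          · rw [Nat.cast_sub (by omega)]
            push_cast
            linarith
  have h4 : ((N.descFactorial t : ℕ) : ℝ) + (#{X : Fin t → V | ¬ Function.Injective X} : ℕ)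
      = (N : ℝ) ^ t := by
    rw [← hinj]
    exact_mod_cast htot
  have h5 : ((N + 1 - t : ℕ) : ℝ) ^ t ≤ ((N.descFactorial t : ℕ) : ℝ) := by exact_mod_cast h1
  have h6 : ((#{X : Fin t → V | ¬ Function.Injective X} : ℕ) : ℝ)
      ≤ (t : ℝ) ^ 2 / N * (N : ℝ) ^ t := by
    have : (1 - (t : ℝ) ^ 2 / N) * (N : ℝ) ^ t = (N : ℝ) ^ t - (t : ℝ) ^ 2 / N * (N : ℝ) ^ t := by
      ring
    linarith
  calc ((#{X : Fin t → V | ¬ Function.Injective X} : ℕ) : ℝ) * N
      ≤ ((t : ℝ) ^ 2 / N * (N : ℝ) ^ t) * N := by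
        apply mul_le_mul_of_nonneg_right h6 hNpos.le
    _ = (t : ℝ) ^ 2 * (N : ℝ) ^ t := by
        field_simp

/-- Averaging lemma: a dense relation between `A` and `V` has `t` distinct columns in `V`
which are jointly related to a positive proportion of `A`. -/
theorem exists_common {A V : Type*} [Fintype A] [Fintype V] [DecidableEq V]
    (P : A → V → Prop) [∀ a x, Decidable (P a x)]
    (t : ℕ) (γ : ℝ) (hγ : 0 < γ) (hγ1 : γ ≤ 1)
    (hV1 : 1 ≤ Fintype.card V)
    (hN : 2 * (t : ℝ) ^ 2 ≤ γ ^ t * Fintype.card V)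
    (h : γ * (Fintype.card A * Fintype.card V) ≤ ∑ a : A, (#{x : V | P a x} : ℝ)) :
    ∃ X : Fin t → V, Function.Injective X ∧
      γ ^ t / 2 * Fintype.card A ≤ (#{a : A | ∀ i, P a (X i)} : ℝ) := by
  classical
  set N := Fintype.card V with hNdef
  set M := Fintype.card A with hMdef
  have hNpos : (0 : ℝ) < N := by exact_mod_cast hV1
  have hγt : γ ^ t ≤ 1 := pow_le_one₀ hγ.le hγ1
  have hγt0 : 0 < γ ^ t := by positivity
  have ht2 : t ^ 2 ≤ N := by
    have : (t : ℝ) ^ 2 ≤ N := by
      have h1 : γ ^ t * N ≤ N := by nlinarith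
      nlinarith [sq_nonneg (t : ℝ)]
    exact_mod_cast this
  have htN : t ≤ N := le_trans (by nlinarith [Nat.zero_le t, sq_nonneg (t : ℤ)]) ht2
  -- an injective tuple
  obtain ⟨X0⟩ : Nonempty (Fin t ↪ V) := by
    apply Function.Embedding.nonempty_of_card_le
    simpa using htN
  rcases Nat.eq_zero_or_pos M with hM | hM
  · refine ⟨X0, X0.injective, ?_⟩
    rw [hM]
    simp
  by_contra hcon
  push Not at hcon
  have hMpos : (0 : ℝ) < M := by exact_mod_cast hM
  -- double count
  have hsum : ∑ X : Fin t → V, (#{a : A | ∀ i, P a (X i)} : ℝ)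
      = ∑ a : A, (#{x : V | P a x} : ℝ) ^ t := by
    have h1 : ∀ a : A, (#{x : V | P a x} : ℝ) ^ t
        = (#{X : Fin t → V | ∀ i, P a (X i)} : ℝ) := by
      intro a
      have : #{X : Fin t → V | ∀ i, P a (X i)} = #{x : V | P a x} ^ t := by
        have h2 : ({X : Fin t → V | ∀ i, P a (X i)} : Finset (Fin t → V))
            = Fintype.piFinset (fun _ : Fin t => ({x : V | P a x} : Finset V)) := by
          ext X
          simp
        rw [h2, Fintype.card_piFinset]
        simp
      rw [this]
      push_cast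
      rfl
    simp_rw [h1]
    simp only [Finset.card_filter]
    push_cast
    rw [Finset.sum_comm]
  have hlow : γ ^ t * M * (N : ℝ) ^ t ≤ ∑ a : A, (#{x : V | P a x} : ℝ) ^ t := by
    rcases Nat.eq_zero_or_pos t with ht | ht
    · subst ht
      simp [hMdef]
    · obtain ⟨s, rfl⟩ : ∃ s, t = s + 1 := ⟨t - 1, by omega⟩
      have h1 := pow_sum_div_card_le_sum_pow (s := (univ : Finset A))
        (f := fun a => (#{x : V | P a x} : ℝ)) (fun a _ => by positivity) s
      refine le_trans ?_ h1
      rw [le_div_iff₀ (by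
        have : ((univ : Finset A).card : ℝ) = M := by simp [hMdef]
        rw [this]; positivity)]
      have h2 : ((univ : Finset A).card : ℝ) = M := by simp [hMdef]
      rw [h2]
      calc γ ^ (s + 1) * M * (N : ℝ) ^ (s + 1) * (M : ℝ) ^ s
          = (γ * (M * N)) ^ (s + 1) := by ring
        _ ≤ (∑ a : A, (#{x : V | P a x} : ℝ)) ^ (s + 1) := by
            apply pow_le_pow_left₀ (by positivity) h
  have hup : ∑ X : Fin t → V, (#{a : A | ∀ i, P a (X i)} : ℝ)
      < γ ^ t / 2 * M * (N : ℝ) ^ t + M * (#{X : Fin t → V | ¬ Function.Injective X} : ℝ) := by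
    rw [← Finset.sum_filter_add_sum_filter_not (univ : Finset (Fin t → V)) Function.Injective]
    have e1 : ∑ X ∈ {X : Fin t → V | Function.Injective X}, (#{a : A | ∀ i, P a (X i)} : ℝ)
        < γ ^ t / 2 * M * (N : ℝ) ^ t := by
      calc ∑ X ∈ {X : Fin t → V | Function.Injective X}, (#{a : A | ∀ i, P a (X i)} : ℝ)
          < ∑ X ∈ {X : Fin t → V | Function.Injective X}, (γ ^ t / 2 * M) := by
            apply Finset.sum_lt_sum_of_nonempty
            · exact ⟨X0, by simp [X0.injective]⟩
            · intro X hX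
              simp only [Finset.mem_filter, Finset.mem_univ, true_and] at hX
              exact hcon X hX
        _ = (#{X : Fin t → V | Function.Injective X} : ℝ) * (γ ^ t / 2 * M) := by
            rw [Finset.sum_const, nsmul_eq_mul]
        _ ≤ (N : ℝ) ^ t * (γ ^ t / 2 * M) := by
            apply mul_le_mul_of_nonneg_right _ (by positivity)
            have : #{X : Fin t → V | Function.Injective X} ≤ N ^ t := by
              refine le_trans (Finset.card_le_univ _) ?_
              simp [hNdef]
            exact_mod_cast this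
        _ = γ ^ t / 2 * M * (N : ℝ) ^ t := by ring
    have e2 : ∑ X ∈ {X : Fin t → V | ¬ Function.Injective X}, (#{a : A | ∀ i, P a (X i)} : ℝ)
        ≤ M * (#{X : Fin t → V | ¬ Function.Injective X} : ℝ) := by
      calc ∑ X ∈ {X : Fin t → V | ¬ Function.Injective X}, (#{a : A | ∀ i, P a (X i)} : ℝ)
          ≤ ∑ X ∈ {X : Fin t → V | ¬ Function.Injective X}, (M : ℝ) := by
            apply Finset.sum_le_sum
            intro X _
            have : #{a : A | ∀ i, P a (X i)} ≤ M := Finset.card_le_univ _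
            exact_mod_cast this
        _ = M * (#{X : Fin t → V | ¬ Function.Injective X} : ℝ) := by
            rw [Finset.sum_const, nsmul_eq_mul, mul_comm]
    linarith
  have hnon := card_noninj_le V t ht2 hV1
  have hnon2 : (#{X : Fin t → V | ¬ Function.Injective X} : ℝ) ≤ γ ^ t / 2 * (N : ℝ) ^ t := by
    have h1 : (#{X : Fin t → V | ¬ Function.Injective X} : ℝ) * N
        ≤ (γ ^ t / 2 * (N : ℝ) ^ t) * N := by
      refine le_trans hnon ?_
      have : (0 : ℝ) ≤ (N : ℝ) ^ t := by positivity
      nlinarith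
    exact le_of_mul_le_mul_right h1 hNpos
  rw [hsum] at hup
  nlinarith

end Pool.Agent.MP_f19a21_co
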