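import Mathlib

set_option autoImplicit false

open Filter SimpleGraph

namespace Pool.Agent.MP_f19a21_co

/-- `G_{n,r}`: the `r`-th power of the cycle `C_n`, on the vertex set `ℤ/nℤ`.
Two distinct vertices are adjacent when they are at most `r` steps apart along the cycle. -/
def cyclePower (n r : ℕ) : SimpleGraph (ZMod n) where
  Adj x y := x ≠ y ∧ ∃ k : ℕ, k ≤ r ∧ (y = x + (k : ZMod n) ∨ x = y + (k : ZMod n))
  symm := ⟨by
    rintro x y ⟨hne, k, hk, h⟩
    exact ⟨hne.symm, k, hk, h.symm⟩⟩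
  loopless := ⟨fun x h => h.1 rfl⟩

/-- `f(n,r)`: the least `m` such that every subgraph of `G_{n,r}` with `m` edges contains
a triangle. -/
noncomputable def f (n r : ℕ) : ℕ :=
  sInf {m : ℕ | ∀ S : (cyclePower n r).Subgraph, S.edgeSet.ncard = m → ¬ S.coe.CliqueFree 3}

/-- `c = limsup_{r → ∞} limsup_{n → ∞} f(n,r) / (r n)`. -/
noncomputable def c : ℝ :=
  limsup (fun r : ℕ => limsup (fun n : ℕ => (f n r : ℝ) / ((r : ℝ) * (n : ℝ))) atTop) atTop

end Pool.Agent.MP_f19a21_co
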