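import Mathlib
import Pool.Agent.MP_f19a21_co.Common

set_option autoImplicit false

open Finset SimpleGraph

namespace Pool.Agent.MP_f19a21_co

/-- Many (ordered) triangles force a complete tripartite graph with parts of size `t`. -/
theorem exists_equipartite (t : ℕ) (γ : ℝ) (hγ : 0 < γ) (hγ1 : γ ≤ 1) :
    ∃ N₀ : ℕ, ∀ (V : Type) [Fintype V] [DecidableEq V] (G : SimpleGraph V) [DecidableRel G.Adj],
      N₀ ≤ Fintype.card V →
      γ * (Fintype.card V : ℝ) ^ 3 ≤
        (#{p : (V × V) × V | G.Adj p.2 p.1.1 ∧ G.Adj p.2 p.1.2 ∧ G.Adj p.1.1 p.1.2} : ℝ) →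
      (completeEquipartiteGraph 3 t) ⊑ G := by
  classical
  set γ₁ : ℝ := γ ^ t / 2 with hγ₁
  set γ₂ : ℝ := γ₁ ^ t / 2 with hγ₂
  have p1 : 0 < γ₁ := by positivity
  have p1' : γ₁ ≤ 1 := by
    have := pow_le_one₀ (n := t) hγ.le hγ1
    rw [hγ₁]; linarith
  have p2 : 0 < γ₂ := by positivity
  obtain ⟨N1, hN1⟩ := exists_nat_ge (2 * (t : ℝ) ^ 2 / γ ^ t)
  obtain ⟨N2, hN2⟩ := exists_nat_ge (2 * (t : ℝ) ^ 2 / γ₁ ^ t)
  obtain ⟨N3, hN3⟩ := exists_nat_ge ((t : ℝ) / γ₂)
  refine ⟨N1 + N2 + N3 + 1, ?_⟩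
  intro V _ _ G _ hV hcount
  set N := Fintype.card V with hN
  have hV1 : 1 ≤ N := by omega
  have a1 : 2 * (t : ℝ) ^ 2 ≤ γ ^ t * N := by
    have : 2 * (t : ℝ) ^ 2 / γ ^ t ≤ N := hN1.trans (by exact_mod_cast (by omega : N1 ≤ N))
    rw [div_le_iff₀ (by positivity)] at this
    linarith
  have a2 : 2 * (t : ℝ) ^ 2 ≤ γ₁ ^ t * N := by
    have : 2 * (t : ℝ) ^ 2 / γ₁ ^ t ≤ N := hN2.trans (by exact_mod_cast (by omega : N2 ≤ N))
    rw [div_le_iff₀ (by positivity)] at this
    linarith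
  have a3 : (t : ℝ) ≤ γ₂ * N := by
    have : (t : ℝ) / γ₂ ≤ N := hN3.trans (by exact_mod_cast (by omega : N3 ≤ N))
    rw [div_le_iff₀ (by positivity)] at this
    linarith
  obtain ⟨X, hX, hXc⟩ := exists_common (A := V × V) (V := V)
    (fun a x => G.Adj x a.1 ∧ G.Adj x a.2 ∧ G.Adj a.1 a.2) t γ hγ hγ1 hV1 a1 (by
      have e1 : (Fintype.card (V × V) : ℝ) * (Fintype.card V) = (N : ℝ) ^ 3 := by
        rw [Fintype.card_prod]; push_cast; rw [← hN]; ring
      rw [e1]
      refine hcount.trans (le_of_eq ?_)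
      simp only [Finset.card_filter]
      push_cast
      rw [Fintype.sum_prod_type])
  obtain ⟨Y, hY, hYc⟩ := exists_common (A := V) (V := V)
    (fun z y => ∀ i, G.Adj (X i) y ∧ G.Adj (X i) z ∧ G.Adj y z) t γ₁ p1 p1' hV1 a2 (by
      have e1 : (Fintype.card (V × V) : ℝ) = (Fintype.card V : ℝ) * (Fintype.card V) := by
        rw [Fintype.card_prod]; push_cast; ring
      rw [e1] at hXc
      refine hXc.trans (le_of_eq ?_)
      simp only [Finset.card_filter]
      push_cast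
      rw [Fintype.sum_prod_type, Finset.sum_comm])
  have hZ : t ≤ #{z : V | ∀ j, ∀ i, G.Adj (X i) (Y j) ∧ G.Adj (X i) z ∧ G.Adj (Y j) z} := by
    have : (t : ℝ) ≤ (#{z : V | ∀ j, ∀ i, G.Adj (X i) (Y j) ∧ G.Adj (X i) z ∧ G.Adj (Y j) z} : ℝ) :=
      a3.trans hYc
    exact_mod_cast this
  obtain ⟨S, hS, hSc⟩ := Finset.exists_subset_card_eq hZ
  let e := S.equivFinOfCardEq hSc
  let Z : Fin t → V := fun k => (e.symm k : V)
  have hZinj : Function.Injective Z := fun a b hab => e.symm.injective (Subtype.ext hab)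
  have hZp : ∀ k j i, G.Adj (X i) (Y j) ∧ G.Adj (X i) (Z k) ∧ G.Adj (Y j) (Z k) := by
    intro k j i
    have := hS (e.symm k).2
    simp only [Finset.mem_filter, Finset.mem_univ, true_and] at this
    exact this j i
  let F : Fin 3 × Fin t → V := fun p => ![X p.2, Y p.2, Z p.2] p.1
  have hF : ∀ p q : Fin 3 × Fin t, p.1 ≠ q.1 → G.Adj (F p) (F q) := by
    rintro ⟨a, i⟩ ⟨b, j⟩ hab
    have h1 := hZp i j i
    have h2 := hZp j i j
    have h3 := hZp i i j
    have h4 := hZp j j i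
    have h5 := hZp i j j
    have h6 := hZp j i i
    fin_cases a <;> fin_cases b <;> simp [F] at hab ⊢
    · exact h1.1
    · exact h6.2.1
    · exact (h2.1).symm
    · exact h2.2.2
    · exact (h3.2.1).symm
    · exact (h1.2.2).symm
  refine ⟨⟨⟨F, ?_⟩, ?_⟩⟩
  · intro p q hpq
    exact hF p q hpq
  · rintro ⟨a, i⟩ ⟨b, j⟩ hab
    change F (a, i) = F (b, j) at hab
    by_cases hab' : a = b
    · subst hab'
      have : i = j := by
        fin_cases a <;> simp [F] at hab
        · exact hX hab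
        · exact hY hab
        · exact hZinj hab
      rw [this]
    · exact absurd hab (hF _ _ hab').ne

/-- Window lemma: an `H`-free graph on many vertices can be made triangle-free by
deleting few edges, when `H` is 3-colourable. -/
theorem window (W : Type) [Fintype W] (H : SimpleGraph W) (hH : H.Colorable 3)
    (η : ℝ) (hη : 0 < η) :
    ∃ N₀ : ℕ, ∀ (V : Type) [Fintype V] (G : SimpleGraph V),
      N₀ ≤ Fintype.card V → ¬ (H ⊑ G) →
      ∃ G' ≤ G, G'.CliqueFree 3 ∧
        ((G.edgeSet \ G'.edgeSet).ncard : ℝ) ≤ η * (Fintype.card V : ℝ) ^ 2 := by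
  classical
  obtain ⟨C⟩ := hH
  set t := Fintype.card W with ht
  have hHK : H ⊑ completeEquipartiteGraph 3 t := by
    apply isContained_completeEquipartiteGraph_of_colorable C
    intro c
    exact Fintype.card_subtype_le _
  set δ : ℝ := min (triangleRemovalBound η) 1 with hδ
  have hδ0 : 0 < δ := lt_min (triangleRemovalBound_pos hη) one_pos
  obtain ⟨N₀, hN₀⟩ := exists_equipartite t δ hδ0 (min_le_right _ _)
  refine ⟨N₀ + 1, ?_⟩
  intro V _ G hV hfree
  by_cases hc : (#(G.cliqueFinset 3) : ℝ) < triangleRemovalBound η * (Fintype.card V : ℝ) ^ 3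
  · obtain ⟨G', hG', hdec, hlt, hcf⟩ := triangle_removal hc
    refine ⟨G', hG', hcf, ?_⟩
    have h1 : (G.edgeSet \ G'.edgeSet).ncard = #G.edgeFinset - #G'.edgeFinset := by
      have : (G.edgeSet \ G'.edgeSet) = ((G.edgeFinset \ G'.edgeFinset : Finset (Sym2 V)) : Set (Sym2 V)) := by
        simp
      rw [this, Set.ncard_coe_finset, Finset.card_sdiff_of_subset]
      exact edgeFinset_mono hG'
    rw [h1, Nat.cast_sub (Finset.card_le_card (edgeFinset_mono hG'))]
    refine hlt.le.trans (le_of_eq ?_)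
    push_cast
    ring
  · exfalso
    push Not at hc
    apply hfree
    refine hHK.trans (hN₀ V G (by omega) ?_)
    have h1 : δ * (Fintype.card V : ℝ) ^ 3 ≤ triangleRemovalBound η * (Fintype.card V : ℝ) ^ 3 :=
      mul_le_mul_of_nonneg_right (min_le_left _ _) (by positivity)
    refine h1.trans (hc.trans ?_)
    have h2 : #(G.cliqueFinset 3) ≤
        #{p : (V × V) × V | G.Adj p.2 p.1.1 ∧ G.Adj p.2 p.1.2 ∧ G.Adj p.1.1 p.1.2} := by
      apply Finset.card_le_card_of_surjOn (fun p => ({p.2, p.1.1, p.1.2} : Finset V))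
      intro s hs
      simp only [Finset.mem_coe, mem_cliqueFinset_iff] at hs
      obtain ⟨a, b, c, hab, hac, hbc, rfl⟩ := is3Clique_iff.1 hs
      refine ⟨((b, c), a), ?_, rfl⟩
      simp [hab, hac, hbc]
    exact_mod_cast h2

end Pool.Agent.MP_f19a21_co
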