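import Mathlib
import Pool.Agent.MP_f19a21_co.Defs
import Pool.Agent.MP_f19a21_co.Equi

set_option autoImplicit false

open Finset Filter SimpleGraph

namespace Pool.Agent.MP_f19a21_co

/-- `G_{n,r}` has at most `r n` edges. -/
theorem edge_cover (n r : ℕ) [NeZero n] :
    (cyclePower n r).edgeSet ⊆
      (fun p : ZMod n × Fin r => s(p.1, p.1 + ((p.2 : ℕ) + 1 : ℕ))) '' Set.univ := by
  intro e he
  induction e using Sym2.ind with
  | _ x y =>
    rw [mem_edgeSet] at he
    obtain ⟨hne, k, hk, h⟩ := he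
    have hk0 : k ≠ 0 := by
      rintro rfl
      rcases h with h | h
      · exact hne (by simpa using h.symm)
      · exact hne (by simpa using h)
    rcases h with h | h
    · refine ⟨(x, ⟨k - 1, by omega⟩), trivial, ?_⟩
      simp only
      rw [h, Nat.sub_add_cancel (by omega)]
    · refine ⟨(y, ⟨k - 1, by omega⟩), trivial, ?_⟩
      simp only
      rw [Nat.sub_add_cancel (by omega), h, Sym2.eq_swap]

theorem ncard_le (n r : ℕ) [NeZero n] (S : Set (Sym2 (ZMod n)))
    (hS : S ⊆ (cyclePower n r).edgeSet) : S.ncard ≤ r * n := by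
  have h1 := hS.trans (edge_cover n r)
  refine (Set.ncard_le_ncard h1 (Set.toFinite _)).trans ?_
  refine (Set.ncard_image_le (Set.toFinite _)).trans ?_
  rw [Set.ncard_univ, Nat.card_prod, Nat.card_eq_fintype_card, Nat.card_eq_fintype_card,
    ZMod.card, Fintype.card_fin, mul_comm]

theorem f_le (n r : ℕ) [NeZero n] : f n r ≤ r * n + 1 := by
  apply Nat.sInf_le
  intro S hS
  exfalso
  have := ncard_le n r S.edgeSet S.edgeSet_subset
  omega

theorem f_spec (n r : ℕ) [NeZero n] (S : (cyclePower n r).Subgraph)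
    (hS : S.edgeSet.ncard = f n r) : ¬ S.coe.CliqueFree 3 := by
  have hne : {m : ℕ | ∀ S : (cyclePower n r).Subgraph,
      S.edgeSet.ncard = m → ¬ S.coe.CliqueFree 3}.Nonempty := by
    refine ⟨r * n + 1, ?_⟩
    intro S hS
    exfalso
    have := ncard_le n r S.edgeSet S.edgeSet_subset
    omega
  exact Nat.sInf_mem hne S hS

/-- Monotone form of the defining property of `f`. -/
theorem f_spec' (n r : ℕ) [NeZero n] (G : SimpleGraph (ZMod n)) (hG : G ≤ cyclePower n r)
    (h : f n r ≤ G.edgeSet.ncard) : ¬ G.CliqueFree 3 := by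
  intro hfree
  obtain ⟨s, hs, hsc⟩ := Set.exists_subset_card_eq h
  have hle : fromEdgeSet s ≤ G := by
    intro x y hxy
    rw [fromEdgeSet_adj] at hxy
    exact hs hxy.1
  have hE : (fromEdgeSet s).edgeSet = s := by
    rw [edgeSet_fromEdgeSet, sdiff_eq_left, Set.disjoint_left]
    intro e he hd
    exact G.not_isDiag_of_mem_edgeSet (hs he) hd
  let S : (cyclePower n r).Subgraph := toSubgraph (fromEdgeSet s) (hle.trans hG)
  have hSs : S.spanningCoe = fromEdgeSet s := rfl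
  have h1 : S.edgeSet.ncard = f n r := by
    rw [← Subgraph.edgeSet_spanningCoe, hSs, hE, hsc]
  apply f_spec n r S h1
  apply CliqueFree.comap ⟨S.coeEmbeddingSpanningCoe.toCopy⟩
  rw [hSs]
  exact hfree.anti hle

/-- Every triangle of `G_{n,r}` lies in one of the windows `{j r, …, j r + 2 r - 1}`. -/
theorem triangle_window (n r : ℕ) [NeZero n] (hr : 1 ≤ r) (hn : 3 * r < n) (x y z : ZMod n)
    (hxy : (cyclePower n r).Adj x y) (hyz : (cyclePower n r).Adj y z)
    (hxz : (cyclePower n r).Adj x z) :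
    ∃ j ≤ n / r, ∃ a b c : Fin (2 * r), x = ((j * r + a : ℕ) : ZMod n) ∧
      y = ((j * r + b : ℕ) : ZMod n) ∧ z = ((j * r + c : ℕ) : ZMod n) := by
  -- it suffices to find a first vertex
  have key : ∀ w : ZMod n, ∀ a b c : ℕ, a ≤ r → b ≤ r → c ≤ r → x = w + (a : ZMod n) →
      y = w + (b : ZMod n) → z = w + (c : ZMod n) →
      ∃ j ≤ n / r, ∃ a b c : Fin (2 * r), x = ((j * r + a : ℕ) : ZMod n) ∧
        y = ((j * r + b : ℕ) : ZMod n) ∧ z = ((j * r + c : ℕ) : ZMod n) := by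
    intro w a b c ha hb hc hx hy hz
    have hw : w = ((w.val : ℕ) : ZMod n) := (ZMod.natCast_zmod_val w).symm
    have hwlt : w.val < n := ZMod.val_lt w
    have hmod : w.val % r < r := Nat.mod_lt _ (by omega)
    have hdm : w.val / r * r + w.val % r = w.val := Nat.div_add_mod' _ _
    refine ⟨w.val / r, Nat.div_le_div_right hwlt.le, ⟨w.val % r + a, by omega⟩,
      ⟨w.val % r + b, by omega⟩, ⟨w.val % r + c, by omega⟩, ?_, ?_, ?_⟩
    · simp only
      rw [← add_assoc, hdm, hx, Nat.cast_add, ← hw]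
    · simp only
      rw [← add_assoc, hdm, hy, Nat.cast_add, ← hw]
    · simp only
      rw [← add_assoc, hdm, hz, Nat.cast_add, ← hw]
  have cyc : ∀ u v w : ZMod n, ∀ a b c : ℕ, a ≤ r → b ≤ r → c ≤ r → u ≠ v →
      v = u + (a : ZMod n) → w = v + (b : ZMod n) → u = w + (c : ZMod n) → False := by
    intro u v w a b c ha hb hc hne h1 h2 h3
    have h0 : ((a + b + c : ℕ) : ZMod n) = 0 := by
      have : u = u + ((a + b + c : ℕ) : ZMod n) := by
        push_cast
        conv_lhs => rw [h3, h2, h1]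
        ring
      simpa using this
    rw [ZMod.natCast_eq_zero_iff] at h0
    have h4 : a + b + c = 0 := Nat.eq_zero_of_dvd_of_lt h0 (by omega)
    have ha0 : a = 0 := by omega
    apply hne
    rw [h1, ha0]
    simp
  obtain ⟨hne1, k1, hk1, h1⟩ := hxy
  obtain ⟨hne2, k2, hk2, h2⟩ := hyz
  obtain ⟨hne3, k3, hk3, h3⟩ := hxz
  rcases h1 with h1 | h1 <;> rcases h2 with h2 | h2 <;> rcases h3 with h3 | h3
  · -- x → y → z, x → z
    exact key x 0 k1 k3 (by omega) hk1 hk3 (by simp) h1 h3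
  · -- x → y → z → x
    exact (cyc x y z k1 k2 k3 hk1 hk2 hk3 hne1 h1 h2 h3).elim
  · -- x → y, z → y, x → z
    exact key x 0 k1 k3 (by omega) hk1 hk3 (by simp) h1 h3
  · -- x → y, z → y, z → x
    exact key z k3 k2 0 hk3 hk2 (by omega) h3 h2 (by simp)
  · -- y → x, y → z, x → z
    exact key y k1 0 k2 hk1 (by omega) hk2 h1 (by simp) h2
  · -- y → x, y → z, z → x
    exact key y k1 0 k2 hk1 (by omega) hk2 h1 (by simp) h2
  · -- y → x, z → y, x → z : cycle x → z → y → x
    exact (cyc x z y k3 k2 k1 hk3 hk2 hk1 hne3 h3 h2 h1).elim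
  · -- y → x, z → y, z → x
    exact key z k3 k2 0 hk3 hk2 (by omega) h3 h2 (by simp)

theorem window_inj (n r j : ℕ) (hn : 2 * r ≤ n) :
    Function.Injective (fun i : Fin (2 * r) => ((j * r + i : ℕ) : ZMod n)) := by
  intro a b hab
  simp only [Nat.cast_add, add_right_inj] at hab
  rw [ZMod.natCast_eq_natCast_iff'] at hab
  rw [Nat.mod_eq_of_lt (by omega), Nat.mod_eq_of_lt (by omega)] at hab
  exact Fin.ext hab

/-- Removal lemma inside `G_{n,r}`. -/
theorem cycle_removal (W : Type) [Fintype W] (H : SimpleGraph W) (hH : H.Colorable 3)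
    (η : ℝ) (hη : 0 < η) :
    ∃ r₀ : ℕ, ∀ r ≥ r₀, 1 ≤ r → ∀ n : ℕ, [NeZero n] → 3 * r < n → ∀ G : SimpleGraph (ZMod n),
      G ≤ cyclePower n r → ¬ (H ⊑ G) →
      ∃ G' ≤ G, G'.CliqueFree 3 ∧
        (G.edgeSet.ncard : ℝ) - ((n / r + 1 : ℕ) : ℝ) * (η * (2 * (r : ℝ)) ^ 2)
          ≤ (G'.edgeSet.ncard : ℝ) := by
  classical
  obtain ⟨N₀, hN₀⟩ := window W H hH η hη
  refine ⟨N₀, ?_⟩
  intro r hr hr1 n _ hn G hG hfree
  let φ : ℕ → Fin (2 * r) → ZMod n := fun j i => ((j * r + i : ℕ) : ZMod n)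
  have hφ : ∀ j, Function.Injective (φ j) := fun j => window_inj n r j (by omega)
  have hex : ∀ j : ℕ, ∃ G' ≤ G.comap (φ j), G'.CliqueFree 3 ∧
      (((G.comap (φ j)).edgeSet \ G'.edgeSet).ncard : ℝ) ≤ η * (2 * (r : ℝ)) ^ 2 := by
    intro j
    obtain ⟨G', h1, h2, h3⟩ := hN₀ (Fin (2 * r)) (G.comap (φ j)) (by simp; omega) (by
      intro hc
      apply hfree
      refine hc.trans ⟨⟨⟨φ j, ?_⟩, hφ j⟩⟩
      intro a b hab
      exact hab)
    refine ⟨G', h1, h2, ?_⟩
    simpa using h3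
  choose K hKle hKfree hKcard using hex
  let D : ℕ → Set (Sym2 (ZMod n)) := fun j =>
    Sym2.map (φ j) '' ((G.comap (φ j)).edgeSet \ (K j).edgeSet)
  have hD : ∀ j, ((D j).ncard : ℝ) ≤ η * (2 * (r : ℝ)) ^ 2 := by
    intro j
    refine le_trans ?_ (hKcard j)
    exact_mod_cast Set.ncard_image_le (Set.toFinite _)
  let U : Set (Sym2 (ZMod n)) := ⋃ j ∈ Finset.range (n / r + 1), D j
  have hU : (U.ncard : ℝ) ≤ ((n / r + 1 : ℕ) : ℝ) * (η * (2 * (r : ℝ)) ^ 2) := by
    have h1 : U.ncard ≤ ∑ j ∈ Finset.range (n / r + 1), (D j).ncard :=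
      Finset.set_ncard_biUnion_le _ _
    calc (U.ncard : ℝ) ≤ ((∑ j ∈ Finset.range (n / r + 1), (D j).ncard : ℕ) : ℝ) := by
          exact_mod_cast h1
      _ = ∑ j ∈ Finset.range (n / r + 1), ((D j).ncard : ℝ) := by push_cast; rfl
      _ ≤ ∑ j ∈ Finset.range (n / r + 1), (η * (2 * (r : ℝ)) ^ 2) :=
          Finset.sum_le_sum (fun j _ => hD j)
      _ = ((n / r + 1 : ℕ) : ℝ) * (η * (2 * (r : ℝ)) ^ 2) := by
          rw [Finset.sum_const, Finset.card_range, nsmul_eq_mul]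
  refine ⟨G.deleteEdges U, deleteEdges_le U, ?_, ?_⟩
  · -- triangle-free
    intro s hs
    obtain ⟨x, y, z, hxy, hxz, hyz, rfl⟩ := is3Clique_iff.1 hs
    rw [deleteEdges_adj] at hxy hxz hyz
    obtain ⟨j, hj, a, b, c, hx, hy, hz⟩ := triangle_window n r hr1 hn x y z
      (hG hxy.1) (hG hyz.1) (hG hxz.1)
    have hj' : j ∈ Finset.range (n / r + 1) := by
      rw [Finset.mem_range]; omega
    have hK : ∀ a b : Fin (2 * r), G.Adj (φ j a) (φ j b) → s(φ j a, φ j b) ∉ U →
        (K j).Adj a b := by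
      intro a b hab hnot
      by_contra hno
      apply hnot
      refine Set.mem_biUnion hj' ?_
      refine ⟨s(a, b), ⟨?_, ?_⟩, ?_⟩
      · exact hab
      · exact hno
      · simp
    have e1 : (K j).Adj a b := hK a b (by rw [← show x = φ j a from hx, ← show y = φ j b from hy]; exact hxy.1)
      (by rw [← show x = φ j a from hx, ← show y = φ j b from hy]; exact hxy.2)
    have e2 : (K j).Adj a c := hK a c (by rw [← show x = φ j a from hx, ← show z = φ j c from hz]; exact hxz.1)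
      (by rw [← show x = φ j a from hx, ← show z = φ j c from hz]; exact hxz.2)
    have e3 : (K j).Adj b c := hK b c (by rw [← show y = φ j b from hy, ← show z = φ j c from hz]; exact hyz.1)
      (by rw [← show y = φ j b from hy, ← show z = φ j c from hz]; exact hyz.2)
    exact hKfree j _ (is3Clique_iff.2 ⟨a, b, c, e1, e2, e3, rfl⟩)
  · have h1 : (G.deleteEdges U).edgeSet = G.edgeSet \ U := edgeSet_deleteEdges U
    rw [h1]
    have h2 : G.edgeSet.ncard ≤ (G.edgeSet \ U).ncard + U.ncard := by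
      have := Set.le_ncard_sdiff U G.edgeSet (Set.toFinite _)
      omega
    have h3 : (G.edgeSet.ncard : ℝ) ≤ ((G.edgeSet \ U).ncard : ℝ) + (U.ncard : ℝ) := by
      exact_mod_cast h2
    linarith

theorem inner_bdd (r : ℕ) : ∀ᶠ n : ℕ in atTop, (f n r : ℝ) / ((r : ℝ) * (n : ℝ)) ≤ 2 := by
  filter_upwards [eventually_ge_atTop 1] with n hn
  have : NeZero n := ⟨by omega⟩
  rcases Nat.eq_zero_or_pos r with hr | hr
  · subst hr; simp
  · have h1 : (f n r : ℝ) ≤ (r : ℝ) * n + 1 := by exact_mod_cast f_le n r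
    have hr' : (1 : ℝ) ≤ r := by exact_mod_cast hr
    have hn' : (1 : ℝ) ≤ n := by exact_mod_cast hn
    have h2 : (1 : ℝ) ≤ (r : ℝ) * n := by nlinarith
    rw [div_le_iff₀ (by linarith)]
    linarith

theorem limsup_le_two (r : ℕ) :
    limsup (fun n : ℕ => (f n r : ℝ) / ((r : ℝ) * (n : ℝ))) atTop ≤ 2 := by
  apply limsup_le_of_le
  · refine IsCoboundedUnder.of_frequently_ge (a := 0) ?_
    exact Frequently.of_forall (fun n => by positivity)
  · exact inner_bdd r

theorem threshold (ε : ℝ) (hε : 0 < ε) :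
    ∀ᶠ r : ℕ in atTop, ∀ᶠ n : ℕ in atTop, (f n r : ℝ) < (c + ε) * (r * n) := by
  have h1 : ∀ᶠ r : ℕ in atTop,
      limsup (fun n : ℕ => (f n r : ℝ) / ((r : ℝ) * (n : ℝ))) atTop < c + ε := by
    apply eventually_lt_of_limsup_lt
    · change c < c + ε
      linarith
    · exact ⟨2, by
        rw [Filter.eventually_map]
        exact Eventually.of_forall limsup_le_two⟩
  filter_upwards [h1, eventually_ge_atTop 1] with r hr hr1
  have h2 : ∀ᶠ n : ℕ in atTop, (f n r : ℝ) / ((r : ℝ) * (n : ℝ)) < c + ε := by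
    exact eventually_lt_of_limsup_lt hr ⟨2, by rw [Filter.eventually_map]; exact inner_bdd r⟩
  filter_upwards [h2, eventually_ge_atTop 1] with n hn hn1
  have hr' : (1 : ℝ) ≤ r := by exact_mod_cast hr1
  have hn' : (1 : ℝ) ≤ n := by exact_mod_cast hn1
  have h3 : (0 : ℝ) < (r : ℝ) * n := by nlinarith
  rwa [div_lt_iff₀ h3] at hn

/-- A complete tripartite graph contained in the spanning graph of a subgraph lies in the
subgraph itself. -/
theorem contained_coe {V : Type*} {G : SimpleGraph V} (S : G.Subgraph) (t : ℕ)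
    (h : completeEquipartiteGraph 3 t ⊑ S.spanningCoe) :
    completeEquipartiteGraph 3 t ⊑ S.coe := by
  obtain ⟨φ⟩ := h
  have hmem : ∀ p : Fin 3 × Fin t, φ p ∈ S.verts := by
    rintro ⟨a, i⟩
    have hadj : (completeEquipartiteGraph 3 t).Adj (a, i) (a + 1, i) := by
      rw [completeEquipartiteGraph_adj]
      fin_cases a <;> simp
    have h1 : S.spanningCoe.Adj (φ (a, i)) (φ (a + 1, i)) := φ.toHom.map_adj hadj
    exact S.edge_vert h1
  refine ⟨⟨⟨fun p => ⟨φ p, hmem p⟩, ?_⟩, ?_⟩⟩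
  · intro p q hpq
    exact φ.toHom.map_adj hpq
  · intro p q hpq
    exact φ.injective' (congrArg Subtype.val hpq)

theorem main (W : Type*) [Fintype W] (H : SimpleGraph W) (hH : H.Colorable 3)
    (ε : ℝ) (hε : 0 < ε) :
    ∃ r₀ : ℕ, ∀ r ≥ r₀, ∃ n₀ : ℕ, ∀ n ≥ n₀, ∀ S : (cyclePower n r).Subgraph,
      (c + ε) * (r * n) ≤ (S.edgeSet.ncard : ℝ) → H ⊑ S.coe := by
  classical
  obtain ⟨C⟩ := hH
  set t := Fintype.card W with ht
  have hHK : H ⊑ completeEquipartiteGraph 3 t := by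
    apply isContained_completeEquipartiteGraph_of_colorable C
    intro c
    exact Fintype.card_subtype_le _
  have hKcol : (completeEquipartiteGraph 3 t).Colorable 3 := by
    refine ⟨Coloring.mk Prod.fst ?_⟩
    intro v w hvw
    exact hvw
  obtain ⟨r₁, hr₁⟩ := cycle_removal _ (completeEquipartiteGraph 3 t) hKcol (ε / 16) (by positivity)
  obtain ⟨r₂, hr₂⟩ := eventually_atTop.1 (threshold (ε / 2) (by positivity))
  refine ⟨r₁ + r₂ + 1, ?_⟩
  intro r hr
  obtain ⟨n₁, hn₁⟩ := eventually_atTop.1 (hr₂ r (by omega))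
  refine ⟨n₁ + 3 * r + 1, ?_⟩
  intro n hn S hS
  have : NeZero n := ⟨by omega⟩
  refine hHK.trans (contained_coe S t ?_)
  by_contra hfree
  obtain ⟨G', hG'le, hG'free, hG'card⟩ := hr₁ r (by omega) (by omega) n (by omega)
    S.spanningCoe S.spanningCoe_le hfree
  rw [Subgraph.edgeSet_spanningCoe] at hG'card
  have hr' : (1 : ℝ) ≤ r := by exact_mod_cast (by omega : 1 ≤ r)
  have hrn : (r : ℝ) ≤ n := by exact_mod_cast (by omega : r ≤ n)
  have hdiv : ((n / r + 1 : ℕ) : ℝ) * r ≤ n + r := by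
    have : (n / r + 1) * r ≤ n + r := by
      have := Nat.div_mul_le_self n r
      linarith [Nat.add_mul (n / r) 1 r]
    exact_mod_cast this
  have h2 : ((n / r + 1 : ℕ) : ℝ) * (ε / 16 * (2 * (r : ℝ)) ^ 2) ≤ ε / 2 * (r * n) := by
    have e : ((n / r + 1 : ℕ) : ℝ) * (ε / 16 * (2 * (r : ℝ)) ^ 2)
        = (ε / 4 * r) * (((n / r + 1 : ℕ) : ℝ) * r) := by ring
    rw [e]
    calc (ε / 4 * r) * (((n / r + 1 : ℕ) : ℝ) * r) ≤ (ε / 4 * r) * (n + r) := by
          apply mul_le_mul_of_nonneg_left hdiv (by positivity)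
      _ ≤ (ε / 4 * r) * (n + n) := by
          apply mul_le_mul_of_nonneg_left (by linarith) (by positivity)
      _ = ε / 2 * (r * n) := by ring
  have h3 : (c + ε / 2) * (r * n) ≤ (G'.edgeSet.ncard : ℝ) := by
    have : (c + ε) * (r * n) = (c + ε / 2) * (r * n) + ε / 2 * (r * n) := by ring
    linarith
  have h4 : (f n r : ℝ) < (G'.edgeSet.ncard : ℝ) := lt_of_lt_of_le (hn₁ n (by omega)) h3
  have h5 : f n r ≤ G'.edgeSet.ncard := by exact_mod_cast h4.le
  exact f_spec' n r G' (hG'le.trans S.spanningCoe_le) h5 hG'free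

end Pool.Agent.MP_f19a21_co
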